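import Pool.Agent.H95.DR.Targets
import Pool.Agent.H35.CF.PDE1

/-!
# (AFB) the classes of the ideals of the lines, real quadratic fields
-/

set_option autoImplicit false

open MeasureTheory Set Filter NumberField
open scoped Real nonZeroDivisors Matrix MatrixGroups
open Pool.Agent.H31.CN Pool.Agent.H89.FM Pool.Agent.H61.FM Pool.Agent.H89.FC Pool.Agent.H95.FC
open Pool.Agent.H89.DF Pool.Agent.H95.DR

namespace Pool.Agent.H38.DF

/-- the ideal of a vector with value prime to `f` is prime to `f` -/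
theorem pr_vb {K : Type} [Field K] [NumberField K] {f : ℕ} {I : (Ideal (𝓞 K))⁰} {α β : 𝓞 K}
    {Q : QF} {b : ℤ × ℤ → (Ideal (𝓞 K))⁰} (hb : VBr I α β Q b) {v : ℤ × ℤ} (hv : v ≠ 0)
    (hu : Uv f Q v) : Pool.Agent.H95.CF.Pr K f (b v : Ideal (𝓞 K)) := by
  refine Pool.Agent.H35.CF.pr_norm (nonZeroDivisors.coe_ne_zero _) ?_
  have h1 := hb.nrm v hv
  unfold nm at h1
  rw [h1]
  exact IsCoprime.abs_left hu

/-- the converse -/
theorem uv_vb (hPRN : Pool.Agent.H95.CF.T_PRN) {K : Type} [Field K] [NumberField K] {f : ℕ}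
    {I : (Ideal (𝓞 K))⁰} {α β : 𝓞 K} {Q : QF} {b : ℤ × ℤ → (Ideal (𝓞 K))⁰}
    (hb : VBr I α β Q b) {v : ℤ × ℤ} (hv : v ≠ 0)
    (hp : Pool.Agent.H95.CF.Pr K f (b v : Ideal (𝓞 K))) : Uv f Q v := by
  have h0 : ((b v : (Ideal (𝓞 K))⁰) : Ideal (𝓞 K)) ≠ ⊥ := nonZeroDivisors.coe_ne_zero _
  have h1 := (hPRN K f (b v) h0).1 hp
  have h2 := hb.nrm v hv
  unfold nm at h2
  unfold Uv
  rw [← IsCoprime.abs_left_iff, ← h2]
  exact Nat.isCoprime_iff_coprime.2 h1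

/-- a representative of a line is not zero -/
theorem lt_ne {f : ℕ} {Q : QF} {T : Finset (ℤ × ℤ)} {W : ℤ × ℤ → ℤ × ℤ} (h : LT f Q T W)
    {V : ℤ × ℤ} (hV : V ∈ T) : V ≠ 0 := by
  rintro rfl
  have := h.one 0 hV
  simp [det] at this

/-- equal classes -/
theorem fwd {K : Type} [Field K] [NumberField K] {D f : ℕ} {σ σ' : K →+* ℝ}
    (R : DD K D f σ σ') {G : Type} [CommGroup G] {cl : Ideal (𝓞 K) → G}
    (hG : Pool.Agent.H95.CF.RG K f G cl) (c c' : ClassGroup (𝓞 K)) (V V' : ℤ × ℤ)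
    (hV : V ≠ 0) (hV' : V' ≠ 0) (hu : Uv f (R.Q c) V) (hu' : Uv f (R.Q c') V')
    (hcl : cl (R.b c V) = cl (R.b c' V')) : c = c' ∧ UP (R.α c) (R.β c) f V V' := by
  have hprv := pr_vb (R.vb c) hV hu
  have hprv' := pr_vb (R.vb c') hV' hu'
  obtain ⟨a₁, a₂, ha₁, ha₂, he⟩ := (hG.eqv _ _ hprv hprv').1 hcl
  have hcc : c = c' := by
    have h1 : ClassGroup.mk0 (R.b c V) = ClassGroup.mk0 (R.b c' V') := by
      rw [ClassGroup.mk0_eq_mk0_iff]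
      exact ⟨a₁, a₂, Pool.Agent.H35.CF.rat_ne ha₁, Pool.Agent.H35.CF.rat_ne ha₂, he⟩
    rw [(R.vb c).cls V hV, (R.vb c').cls V' hV', R.cl, R.cl] at h1
    exact inv_injective h1
  subst hcc
  refine ⟨rfl, ?_⟩
  have hsp : Ideal.span {a₁ * lv K (R.α c) (R.β c) V} =
      Ideal.span {a₂ * lv K (R.α c) (R.β c) V'} := by
    rw [← Ideal.span_singleton_mul_span_singleton a₁, (R.vb c).spn V hV, ← mul_assoc, he,
      mul_assoc, ← (R.vb c).spn V' hV', Ideal.span_singleton_mul_span_singleton]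
  rw [Ideal.span_singleton_eq_span_singleton] at hsp
  obtain ⟨u, hu1⟩ := hsp
  have hin : ∀ w : ℤ × ℤ, lv K (R.α c) (R.β c) w ∈ (R.I c : Ideal (𝓞 K)) :=
    fun w => ((R.ob c).mem _).2 ⟨w, rfl⟩
  obtain ⟨w, hw⟩ := ((R.ob c).mem _).1
    (Ideal.mul_mem_left (R.I c : Ideal (𝓞 K)) (u : 𝓞 K) (hin V))
  obtain ⟨r, x₁, hr⟩ := Pool.Agent.H35.CF.rat_int ha₁
  obtain ⟨t, x₂, ht⟩ := Pool.Agent.H35.CF.rat_int ha₂
  obtain ⟨z, hz⟩ := ((R.ob c).mem _).1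
    (Ideal.sub_mem (R.I c : Ideal (𝓞 K)) (Ideal.mul_mem_left _ x₂ (hin V'))
      (Ideal.mul_mem_left _ x₁ (hin w)))
  refine ⟨u, w, hw.symm, ?_⟩
  have hzero := (R.ob c).inj (r * w.1 - t * V'.1 - f * z.1, r * w.2 - t * V'.2 - f * z.2) (by
    have hu2 : a₁ * lv K (R.α c) (R.β c) w = a₂ * lv K (R.α c) (R.β c) V' := by
      have h2 : lv K (R.α c) (R.β c) w = (u : 𝓞 K) * lv K (R.α c) (R.β c) V := hw.symm
      rw [h2, ← hu1]
      ring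
    unfold lv at hu2 hz ⊢
    push_cast
    linear_combination hu2 - ((w.1 : 𝓞 K) * R.α c + (w.2 : 𝓞 K) * R.β c) * hr +
      ((V'.1 : 𝓞 K) * R.α c + (V'.2 : 𝓞 K) * R.β c) * ht + (f : 𝓞 K) * hz)
  have h1 : r * w.1 - t * V'.1 - f * z.1 = 0 := congrArg Prod.fst hzero
  have h2 : r * w.2 - t * V'.2 - f * z.2 = 0 := congrArg Prod.snd hzero
  have h3 : (f : ℤ) ∣ r * det V' w := by
    refine ⟨det V' z, ?_⟩
    unfold det
    linear_combination V'.1 * h2 - V'.2 * h1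
  have h4 : IsCoprime r (f : ℤ) := by
    have h5 : (1 : 𝓞 K) ∈ Ideal.span {a₁} ⊔ Ideal.span {(f : 𝓞 K)} := by
      rw [ha₁.1.2]
      trivial
    obtain ⟨s, hs, y, hy, hsy⟩ := Submodule.mem_sup.1 h5
    obtain ⟨p, rfl⟩ := Ideal.mem_span_singleton.1 hs
    obtain ⟨q, rfl⟩ := Ideal.mem_span_singleton.1 hy
    refine Pool.Agent.H35.CF.cop_int (K := K) (x := p) (y := x₁ * p + q) ?_
    linear_combination hsy - p * hr
  exact h4.symm.dvd_of_dvd_mul_left h3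

/-- equal classes of two vectors on the same line -/
theorem par (hPARr : T_PARr) {K : Type} [Field K] [NumberField K] {D f : ℕ} (hf : 1 ≤ f)
    {σ σ' : K →+* ℝ} (R : DD K D f σ σ') {G : Type} [CommGroup G] {cl : Ideal (𝓞 K) → G}
    (hG : Pool.Agent.H95.CF.RG K f G cl) (c : ClassGroup (𝓞 K)) (V V' : ℤ × ℤ)
    (hV : V ≠ 0) (hV' : V' ≠ 0) (hu : Uv f (R.Q c) V) (hu' : Uv f (R.Q c) V')
    (hd : (f : ℤ) ∣ det V V') : cl (R.b c V) = cl (R.b c V') := by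
  obtain ⟨a, n, hn, ha, hn', -, hab⟩ := hPARr K σ σ' f (R.I c) (R.α c) (R.β c) (R.Q c) (R.b c) hf
    (R.ob c) (R.vb c) V V' hV hV' hu hu' hd
  exact (hG.eqv _ _ (pr_vb (R.vb c) hV hu) (pr_vb (R.vb c) hV' hu')).2 ⟨a, n, ha, hn', hab⟩

theorem pf_FBRr (hPARr : T_PARr) (hPRN : Pool.Agent.H95.CF.T_PRN) : T_FBRr := by
  intro K _ _ D f σ σ' _ hf R G _ cl hG
  refine ⟨fun c c' V V' hV hV' => ⟨fun h => ?_, ?_⟩, fun g => ?_⟩
  · exact fwd R hG c c' V V' (lt_ne (R.lt c) hV) (lt_ne (R.lt c') hV') ((R.lt c).un V hV)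
      ((R.lt c').un V' hV') h
  · rintro ⟨rfl, u, w, hw, hd⟩
    have hV0 := lt_ne (R.lt c) hV
    have hV0' := lt_ne (R.lt c) hV'
    have hlV : lv K (R.α c) (R.β c) V ≠ 0 := fun h => hV0 ((R.ob c).inj V h)
    have hw0 : w ≠ 0 := by
      rintro rfl
      have h1 : lv K (R.α c) (R.β c) (0 : ℤ × ℤ) = 0 := by simp [lv]
      rw [h1] at hw
      exact (mul_ne_zero u.ne_zero hlV) hw.symm
    have hbb : R.b c V = R.b c w := ((R.vb c).fib V w hV0 hw0).2 ⟨u, hw⟩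
    have huV := (R.lt c).un V hV
    have huw : Uv f (R.Q c) w := by
      refine uv_vb hPRN (R.vb c) hw0 ?_
      rw [← hbb]
      exact pr_vb (R.vb c) hV0 huV
    rw [hbb]
    exact (par hPARr hf R hG c V' w hV0' hw0 ((R.lt c).un V' hV') huw hd).symm
  · obtain ⟨J₀, hJ, rfl⟩ := hG.sur g
    let J : (Ideal (𝓞 K))⁰ := ⟨J₀, mem_nonZeroDivisors_iff_ne_zero.2 hJ.1⟩
    have h1 : ClassGroup.mk0 J = (ClassGroup.mk0 (R.I (ClassGroup.mk0 J)⁻¹))⁻¹ := by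
      rw [R.cl, inv_inv]
    obtain ⟨v, hv0, hv⟩ := (R.vb (ClassGroup.mk0 J)⁻¹).sur J h1
    have hvJ : ((R.b (ClassGroup.mk0 J)⁻¹ v : (Ideal (𝓞 K))⁰) : Ideal (𝓞 K)) = J₀ := by
      rw [hv]
    have huv : Uv f (R.Q (ClassGroup.mk0 J)⁻¹) v := by
      refine uv_vb hPRN (R.vb _) hv0 ?_
      rw [hvJ]
      exact hJ
    obtain ⟨V, hV, hVv⟩ := (R.lt (ClassGroup.mk0 J)⁻¹).ex v huv
    refine ⟨(ClassGroup.mk0 J)⁻¹, V, hV, ?_⟩
    rw [par hPARr hf R hG _ V v (lt_ne (R.lt _) hV) hv0 ((R.lt _).un V hV) huv hVv, hvJ]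

end Pool.Agent.H38.DF
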